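import Pool.Agent.Q264.PD.Main
import Pool.Agent.Q264.PD.Limb
import Pool.Agent.Q98.PD.CB
import Pool.Agent.Q98.PD.CONT
import Pool.Agent.Q98.PD.FIX
import Pool.Agent.Q98.PD.LB
import Pool.Agent.Q193.PD.HOM
import Pool.Agent.Q193.PD.MAP
import Pool.Agent.Q193.PD.SEQ
import Pool.Agent.Q185.PD.CIRC
import Pool.Agent.Q185.PD.LIMA
import Pool.Agent.Q185.PD.QQ
import Pool.Agent.Q185.PD.RING
import Pool.Agent.Q277.PD.GR
import Pool.Agent.Q277.PD.CUT
import Pool.Agent.Q277.PD.LA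
import Pool.Agent.Q182.PD.Pot
import Pool.Agent.Q153.PD.RECT
import Pool.Agent.Q153.PD.YG

/-!
# MP_a5fed0_gt: complete flat metrics on the disc in orthogonal coordinates

Answer to Q1: yes.  There are `E, G > 0` of class `C²` on the open unit disc such that `E du² + G dv²` is
locally Euclidean and complete.

Sketch of the proof.  For every smooth `q > 0` on the disc the orthogonal metric `q² du² + dv²` makes the disc a simply
connected Riemann surface.  If it is parabolic, there is a conformal diffeomorphism `X` onto the whole plane, and the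
pull-back of the Euclidean metric is `E du² + G dv²` with `E = |X_u|²`, `G = |X_v|²`, `X_u ⟂ X_v`.  The energy of a cutoff
function `φ` for this structure is `∫ φ_u² / q + q φ_v²`, and its minimum over all `q` is `2 ∫ |φ_u φ_v|`.  The mean
of `N` nested smooth staircase functions (each one `1 - ∏_j (1 - a_j(u) b_j(v))`) has `∫ |φ_u φ_v| = O(1/N)`, so `q` can
be chosen on disjoint annuli, step by step, such that the structure is parabolic.  The uniformization is proved by hand: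
a smooth measurable Riemann mapping theorem (Fourier transform and a contraction in weighted `L²` spaces), a capacity
estimate with circles, Koebe's theorem, and an explicit limit of maps.
-/

set_option autoImplicit false

open Set Filter

namespace Pool.Agent.Results.MP_a5fed0_gt.CompleteFlatMetric

/-- the open unit disc of the plane of the coordinates `(u, v)` -/
def Disc : Set (ℝ × ℝ) := {p | p.1 ^ 2 + p.2 ^ 2 < 1}

/-- `X` is an isometry of the open set `U` with the metric `E du² + G dv²` onto an open subset of the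
Euclidean plane -/
structure IsIsometry (E G : ℝ × ℝ → ℝ) (U : Set (ℝ × ℝ)) (X : ℝ × ℝ → ℝ × ℝ) : Prop where
  smooth : ContDiffOn ℝ 3 X U
  inj : InjOn X U
  isOpen_image : IsOpen (X '' U)
  coefE : ∀ p ∈ U, (fderiv ℝ X p (1, 0)).1 ^ 2 + (fderiv ℝ X p (1, 0)).2 ^ 2 = E p
  coefF : ∀ p ∈ U, (fderiv ℝ X p (1, 0)).1 * (fderiv ℝ X p (0, 1)).1 +
    (fderiv ℝ X p (1, 0)).2 * (fderiv ℝ X p (0, 1)).2 = 0
  coefG : ∀ p ∈ U, (fderiv ℝ X p (0, 1)).1 ^ 2 + (fderiv ℝ X p (0, 1)).2 ^ 2 = G p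

/-- locally Euclidean: every point of the disc has an open neighbourhood isometric to an open subset of
the Euclidean plane -/
def LocallyEuclidean (E G : ℝ × ℝ → ℝ) : Prop :=
  ∀ p ∈ Disc, ∃ U : Set (ℝ × ℝ), IsOpen U ∧ p ∈ U ∧ U ⊆ Disc ∧ ∃ X, IsIsometry E G U X

/-- `L` is the length, for the metric `E du² + G dv²`, of a `C¹` path in the disc from `p` to `q` -/
def IsLength (E G : ℝ × ℝ → ℝ) (p q : ℝ × ℝ) (L : ℝ) : Prop :=
  ∃ γ : ℝ → ℝ × ℝ, ContDiffOn ℝ 1 γ (Icc 0 1) ∧ (∀ t ∈ Icc (0 : ℝ) 1, γ t ∈ Disc) ∧ γ 0 = p ∧ γ 1 = q ∧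
    L = ∫ t in (0 : ℝ)..1, Real.sqrt (E (γ t) * (derivWithin γ (Icc 0 1) t).1 ^ 2 +
      G (γ t) * (derivWithin γ (Icc 0 1) t).2 ^ 2)

/-- the distance induced by the metric `E du² + G dv²` on the disc: the infimum of the lengths of paths -/
noncomputable def lengthDist (E G : ℝ × ℝ → ℝ) (p q : ℝ × ℝ) : ℝ := sInf {L | IsLength E G p q L}

/-- the disc with the induced length distance is complete: every Cauchy sequence converges -/
def IsCompleteMetric (E G : ℝ × ℝ → ℝ) : Prop :=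
  ∀ x : ℕ → ℝ × ℝ, (∀ n, x n ∈ Disc) →
    (∀ ε : ℝ, 0 < ε → ∃ N : ℕ, ∀ m ≥ N, ∀ n ≥ N, lengthDist E G (x m) (x n) < ε) →
      ∃ p ∈ Disc, Tendsto (fun n => lengthDist E G (x n) p) atTop (nhds 0)

/-- There are `E, G > 0` of class `C²` on the open unit disc such that the metric `E du² + G dv²` is locally
Euclidean and complete; moreover there is a `C³` bijection of the disc onto the plane that is an isometry. -/
theorem result : ∃ E G : ℝ × ℝ → ℝ, ContDiffOn ℝ 2 E Disc ∧ ContDiffOn ℝ 2 G Disc ∧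
    (∀ p ∈ Disc, 0 < E p ∧ 0 < G p) ∧ LocallyEuclidean E G ∧ IsCompleteMetric E G ∧
    ∃ X : ℝ × ℝ → ℝ × ℝ, IsIsometry E G Disc X ∧ BijOn X Disc univ := by
  have hQQ := Pool.Agent.Q185.PD.t_QQ
  have hCUT := Pool.Agent.Q277.PD.t_CUT Pool.Agent.Q153.PD.t_RECT
  have hSEQ := Pool.Agent.Q193.PD.t_SEQ hCUT hQQ
  have hCONT := Pool.Agent.Q264.PD.t_CONT Pool.Agent.Q153.PD.t_YG Pool.Agent.Q264.PD.t_CB
  have hFIX := Pool.Agent.Q264.PD.t_FIX hCONT
  have hLAM := Pool.Agent.Q264.PD.t_LAM hFIX Pool.Agent.Q277.PD.t_LA Pool.Agent.Q264.PD.t_LB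
  have hMAP := Pool.Agent.Q193.PD.t_MAP hLAM Pool.Agent.Q182.PD.t_POT Pool.Agent.Q193.PD.t_HOM
  have hSCALE := Pool.Agent.Q264.PD.t_SCALE (Pool.Agent.Q185.PD.t_RING Pool.Agent.Q185.PD.t_CIRC)
    Pool.Agent.Q264.PD.t_EN
  have hKEY := Pool.Agent.Q264.PD.t_KEY Pool.Agent.Q277.PD.t_GR Pool.Agent.Q264.PD.t_COMP
  obtain ⟨E, G, hE, hG, hpos, hloc, hcom, X, hX, hb⟩ := Pool.Agent.Q264.PD.t_FINAL hSEQ hMAP hSCALE hKEY
    Pool.Agent.Q185.PD.t_LIMA (Pool.Agent.Q264.PD.t_LIMB Pool.Agent.Q264.PD.t_COMP) Pool.Agent.Q264.PD.t_FIN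
  refine ⟨E, G, hE, hG, hpos, ?_, hcom, X, ⟨hX.1, hX.2, hX.3, hX.4, hX.5, hX.6⟩, hb⟩
  intro p hp
  obtain ⟨U, hU, hpU, hUD, Y, hY⟩ := hloc p hp
  exact ⟨U, hU, hpU, hUD, Y, ⟨hY.1, hY.2, hY.3, hY.4, hY.5, hY.6⟩⟩

end Pool.Agent.Results.MP_a5fed0_gt.CompleteFlatMetric
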